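import Pool.Agent.Helper98.Lang.Defs

/-!
# P11: the block inequality (MP_c307ca_nt)
-/

set_option autoImplicit false

open Finset

namespace Pool.Agent.Helper98.Lang

namespace BlockAux

theorem pr_prime {a b p : ℕ} (h : p ∈ pr a b) : p.Prime := (mem_filter.1 h).2

theorem PP_ne_zero (b : ℕ) : PP b ≠ 0 :=
  prod_ne_zero_iff.2 fun _ hp => (pr_prime hp).ne_zero

theorem V_pos (b : ℕ) : 0 < V b := by
  unfold V
  apply prod_pos
  intro p hp
  have : 0 < (p : ℝ) := by exact_mod_cast (pr_prime hp).pos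
  positivity

theorem squarefree_PP (b : ℕ) : Squarefree (PP b) := by
  unfold PP
  refine Finset.squarefree_prod_of_pairwise_isCoprime (fun p hp q hq hpq ↦ ?_) ?_
  · exact Nat.coprime_iff_isRelPrime.1 ((Nat.coprime_primes (pr_prime hp) (pr_prime hq)).2 hpq)
  · intro p hp
    exact (pr_prime hp).prime.squarefree

/-- `τ(n)/n` as an arithmetic function -/
noncomputable def tf : ArithmeticFunction ℝ := ⟨fun n => (n.divisors.card : ℝ) / n, by simp⟩

theorem tf_apply (n : ℕ) : tf n = (n.divisors.card : ℝ) / n := rfl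

theorem tf_mult : tf.IsMultiplicative := by
  refine ⟨by simp [tf_apply], ?_⟩
  intro m n h
  rw [tf_apply, tf_apply, tf_apply, Nat.Coprime.card_divisors_mul h]
  push_cast
  rw [mul_div_mul_comm]

theorem sum_tau (b : ℕ) : ∑ n ∈ (PP b).divisors, (n.divisors.card : ℝ) / n ≤ V b ^ 2 := by
  have h := tf_mult.prodPrimeFactors_one_add_of_squarefree (squarefree_PP b)
  have h2 : (PP b).primeFactors = pr 0 b := Nat.primeFactors_prod fun p hp => pr_prime hp
  rw [h2] at h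
  have h3 : ∑ n ∈ (PP b).divisors, (n.divisors.card : ℝ) / n = ∑ d ∈ (PP b).divisors, tf d := rfl
  rw [h3, ← h]
  unfold V
  rw [← prod_pow]
  apply prod_le_prod
  · intro p hp
    rw [tf_apply]; positivity
  · intro p hp
    rw [tf_apply, (pr_prime hp).divisors, card_pair (pr_prime hp).one_lt.ne]
    have : 0 < (p : ℝ) := by exact_mod_cast (pr_prime hp).pos
    have h4 : (1 + 1 / (p : ℝ)) ^ 2 = 1 + (2 : ℕ) / (p : ℝ) + (1 / (p : ℝ)) ^ 2 := by
      push_cast; ring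
    rw [h4]
    have : 0 ≤ (1 / (p : ℝ)) ^ 2 := by positivity
    linarith

theorem NQ_pos {q n : ℕ} (hn : n ≠ 0) : 0 < NQ q n := by
  unfold NQ tup
  apply card_pos.2
  refine ⟨fun _ => 1, ?_⟩
  rw [mem_filter]
  refine ⟨?_, ?_⟩
  · rw [Fintype.mem_piFinset]
    intro _
    exact Nat.one_mem_divisors.2 hn
  · intro i j
    have : (1 : ℝ) ≤ Real.exp 1 := by
      have := Real.add_one_le_exp (1 : ℝ)
      linarith
    simp

/-- Hölder with the exponents `1/(q-1)` and `(q-2)/(q-1)` -/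
theorem hoelder (s : Finset ℕ) (q : ℕ) (hq : 2 ≤ q) (t N : ℕ → ℝ) (ht : ∀ i, 0 ≤ t i)
    (hN : ∀ i, 0 ≤ N i) (hN' : ∀ i ∈ s, 0 < N i) :
    ∑ n ∈ s, (t n ^ (1 / ((q : ℝ) - 1)) * N n ^ (((q : ℝ) - 2) / (q - 1))) / n ≤
      (∑ n ∈ s, t n / n) ^ (1 / ((q : ℝ) - 1)) *
        (∑ n ∈ s, N n / n) ^ (((q : ℝ) - 2) / (q - 1)) := by
  have hq1 : (1 : ℝ) ≤ (q : ℝ) - 1 := by
    have : (2 : ℝ) ≤ q := by exact_mod_cast hq
    linarith
  have hq0 : ((q : ℝ) - 1) ≠ 0 := by linarith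
  have h := Real.inner_le_weight_mul_Lp_of_nonneg s hq1 (fun n => N n / n)
    (fun n => (t n / N n) ^ (1 / ((q : ℝ) - 1))) (fun i => div_nonneg (hN i) (Nat.cast_nonneg i))
    (fun i => Real.rpow_nonneg (div_nonneg (ht i) (hN i)) _)
  have he : 1 - ((q : ℝ) - 1)⁻¹ = ((q : ℝ) - 2) / (q - 1) := by
    field_simp
    ring
  rw [he] at h
  have h1 : ∑ n ∈ s, N n / n * (t n / N n) ^ (1 / ((q : ℝ) - 1)) =
      ∑ n ∈ s, (t n ^ (1 / ((q : ℝ) - 1)) * N n ^ (((q : ℝ) - 2) / (q - 1))) / n := by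
    apply sum_congr rfl
    intro n hn
    rw [Real.div_rpow (ht n) (hN n), ← he, Real.rpow_sub (hN' n hn), Real.rpow_one, one_div]
    have : N n ^ ((q : ℝ) - 1)⁻¹ ≠ 0 := (Real.rpow_pos_of_pos (hN' n hn) _).ne'
    field_simp
  have h2 : ∑ n ∈ s, N n / n * ((t n / N n) ^ (1 / ((q : ℝ) - 1))) ^ ((q : ℝ) - 1) =
      ∑ n ∈ s, t n / n := by
    apply sum_congr rfl
    intro n hn
    rw [← Real.rpow_mul (div_nonneg (ht n) (hN n)), one_div, inv_mul_cancel₀ hq0, Real.rpow_one]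
    have := (hN' n hn).ne'
    field_simp
  rw [h1, h2, mul_comm, ← one_div] at h
  exact h

end BlockAux

open BlockAux in
theorem block (hC : GCross) (hI : GInter) (hM : GMer) (hG : GGron) : GBlock := by
  intro q B hq hB
  obtain ⟨CI, hCI, hI⟩ := hI q hq
  obtain ⟨CM, hCM, hM1, -, hM3, hM4, -⟩ := hM
  have hq2 : (2 : ℝ) ≤ q := by exact_mod_cast hq
  have hqp : (0 : ℝ) < q := by linarith
  have hq1 : (0 : ℝ) < (q : ℝ) - 1 := by linarith
  have hCM0 : 0 < CM := by linarith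
  have hB0 : 0 < B := by linarith
  obtain ⟨E, hE⟩ : ∃ E, E = 2 * Real.log B := ⟨_, rfl⟩
  have hlB : 0 ≤ E := by have := Real.log_nonneg hB; linarith
  set D : ℝ := E ^ (1 - (q : ℝ)⁻¹) * (CM * CI) ^ ((q : ℝ)⁻¹) with hD
  have hD0 : 0 ≤ D := by positivity
  refine ⟨B ^ (1 + 1 / (q : ℝ)) * (D * (CM * B) ^ ((q : ℝ)⁻¹)) + 1, by positivity, ?_⟩
  intro a b ha hab hV
  have hVa := V_pos a
  have hVb := V_pos b
  have hlog : 0 < Real.log a := Real.log_pos (by exact_mod_cast (by omega : 1 < a))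
  -- the ratio
  have hr : V b / V a ≤ B := by rw [div_le_iff₀ hVa]; exact hV
  have hr0 : 0 < V b / V a := div_pos hVb hVa
  -- (ii)
  have hS : ∑ p ∈ pr a b, 1 / (p : ℝ) ≤ E :=
    (hM4 a b hab).trans (by
      have := Real.log_le_log hr0 hr
      linarith)
  -- the bound of CR
  have hCR : ∀ n ∈ (PP b).divisors, CR q a b n ≤
      D * (Real.log a)⁻¹ ^ ((q : ℝ)⁻¹) *
        ((n.divisors.card : ℝ) ^ (1 / ((q : ℝ) - 1)) *
          ((NQ q n : ℝ) ^ (1 / (q : ℝ))) ^ (((q : ℝ) - 2) / (q - 1))) := by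
    intro n hn
    have hn0 : n ≠ 0 := by
      rintro rfl
      simp at hn
    obtain ⟨hc1, hc2⟩ := hC q n hq hn0
    set S := (pr a b).filter (fun p => ¬ p ∣ n) with hSdef
    have hSp : ∀ p ∈ S, p.Prime ∧ ¬ p ∣ n := fun p hp =>
      ⟨pr_prime (mem_filter.1 hp).1, (mem_filter.1 hp).2⟩
    have hX : ∀ p ∈ S, 0 ≤ (NQ q (n * p) : ℝ) - 2 * NQ q n := by
      intro p hp
      have := hc1 p (hSp p hp).1 (hSp p hp).2
      have h2 : (2 : ℝ) * NQ q n ≤ NQ q (n * p) := by exact_mod_cast this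
      linarith
    have hK := hc2 S (CM / Real.log a) hSp (by
      intro x hx
      refine le_trans ?_ (hM3 a b ha x hx)
      apply sum_le_sum_of_subset_of_nonneg
      · apply filter_subset_filter
        exact filter_subset _ _
      · intro p _ _
        positivity)
    have hK2 : ∑ p ∈ S, ((NQ q (n * p) : ℝ) - 2 * NQ q n) / p ≤ CM / Real.log a *
        (CI * (n.divisors.card : ℝ) ^ ((q : ℝ) / (q - 1)) *
          (NQ q n : ℝ) ^ (((q : ℝ) - 2) / (q - 1))) := by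
      refine hK.trans ?_
      apply mul_le_mul_of_nonneg_left (hI n hn0)
      positivity
    have hJ := Real.inner_le_weight_mul_Lp_of_nonneg S (p := (q : ℝ)) (by linarith)
      (fun p => 1 / (p : ℝ)) (fun p => |(NQ q (n * p) : ℝ) - 2 * NQ q n| ^ (1 / (q : ℝ)))
      (fun i => by positivity) (fun i => by positivity)
    have e1 : ∑ p ∈ S, 1 / (p : ℝ) * |(NQ q (n * p) : ℝ) - 2 * NQ q n| ^ (1 / (q : ℝ)) =
        CR q a b n := by
      unfold CR
      apply sum_congr rfl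
      intro p hp
      rw [abs_of_nonneg (hX p hp)]
      ring
    have e2 : ∑ p ∈ S, 1 / (p : ℝ) *
        (|(NQ q (n * p) : ℝ) - 2 * NQ q n| ^ (1 / (q : ℝ))) ^ (q : ℝ) =
        ∑ p ∈ S, ((NQ q (n * p) : ℝ) - 2 * NQ q n) / p := by
      apply sum_congr rfl
      intro p hp
      rw [abs_of_nonneg (hX p hp), ← Real.rpow_mul (hX p hp), one_div_mul_cancel hqp.ne',
        Real.rpow_one]
      ring
    rw [e1, e2] at hJ
    refine hJ.trans ?_
    have hS2 : ∑ p ∈ S, 1 / (p : ℝ) ≤ E := by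
      refine le_trans ?_ hS
      apply sum_le_sum_of_subset_of_nonneg (filter_subset _ _)
      intro p _ _
      positivity
    have hexp : 0 ≤ 1 - (q : ℝ)⁻¹ := by
      have : (q : ℝ)⁻¹ ≤ 1 := inv_le_one_of_one_le₀ (by linarith)
      linarith
    have f1 : (∑ p ∈ S, 1 / (p : ℝ)) ^ (1 - (q : ℝ)⁻¹) ≤ E ^ (1 - (q : ℝ)⁻¹) :=
      Real.rpow_le_rpow (sum_nonneg fun p _ => by positivity) hS2 hexp
    have f2 : (∑ p ∈ S, ((NQ q (n * p) : ℝ) - 2 * NQ q n) / p) ^ ((q : ℝ)⁻¹) ≤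
        (CM / Real.log a *
        (CI * (n.divisors.card : ℝ) ^ ((q : ℝ) / (q - 1)) *
          (NQ q n : ℝ) ^ (((q : ℝ) - 2) / (q - 1)))) ^ ((q : ℝ)⁻¹) :=
      Real.rpow_le_rpow (sum_nonneg fun p hp => div_nonneg (hX p hp) (by positivity)) hK2
        (by positivity)
    refine (mul_le_mul f1 f2 (Real.rpow_nonneg (sum_nonneg fun p hp =>
      div_nonneg (hX p hp) (Nat.cast_nonneg p)) _) (Real.rpow_nonneg hlB _)).trans ?_
    apply le_of_eq
    have g1 : CM / Real.log a * (CI * (n.divisors.card : ℝ) ^ ((q : ℝ) / (q - 1)) *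
          (NQ q n : ℝ) ^ (((q : ℝ) - 2) / (q - 1))) =
        (CM * CI) * (Real.log a)⁻¹ * ((n.divisors.card : ℝ) ^ ((q : ℝ) / (q - 1)) *
          (NQ q n : ℝ) ^ (((q : ℝ) - 2) / (q - 1))) := by
      rw [div_eq_mul_inv]; ring
    rw [g1, Real.mul_rpow (x := CM * CI * (Real.log a)⁻¹) (by positivity) (by positivity),
      Real.mul_rpow (x := CM * CI) (by positivity) (by positivity),
      Real.mul_rpow (x := (n.divisors.card : ℝ) ^ ((q : ℝ) / (q - 1))) (by positivity)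
      (by positivity), ← Real.rpow_mul
      (Nat.cast_nonneg _), ← Real.rpow_mul (Nat.cast_nonneg _), ← Real.rpow_mul
      (Nat.cast_nonneg _)]
    have g2 : (q : ℝ) / (q - 1) * (q : ℝ)⁻¹ = 1 / ((q : ℝ) - 1) := by field_simp
    have g3 : ((q : ℝ) - 2) / (q - 1) * (q : ℝ)⁻¹ = 1 / (q : ℝ) * (((q : ℝ) - 2) / (q - 1)) := by
      ring
    rw [g2, g3, hD]
    ring
  -- the sum over n
  have hsum : ∑ n ∈ (PP b).divisors, CR q a b n / n ≤
      D * (Real.log a)⁻¹ ^ ((q : ℝ)⁻¹) *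
        ((V b ^ 2) ^ (1 / ((q : ℝ) - 1)) * F q b ^ (((q : ℝ) - 2) / (q - 1))) := by
    have h1 : ∑ n ∈ (PP b).divisors, CR q a b n / n ≤ ∑ n ∈ (PP b).divisors,
        D * (Real.log a)⁻¹ ^ ((q : ℝ)⁻¹) *
        (((n.divisors.card : ℝ) ^ (1 / ((q : ℝ) - 1)) *
          ((NQ q n : ℝ) ^ (1 / (q : ℝ))) ^ (((q : ℝ) - 2) / (q - 1))) / n) := by
      apply sum_le_sum
      intro n hn
      rw [← mul_div_assoc]
      exact div_le_div_of_nonneg_right (hCR n hn) (Nat.cast_nonneg n)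
    refine h1.trans ?_
    rw [← mul_sum]
    apply mul_le_mul_of_nonneg_left _ (by positivity)
    refine (hoelder (PP b).divisors q hq (fun n => (n.divisors.card : ℝ))
      (fun n => (NQ q n : ℝ) ^ (1 / (q : ℝ))) (fun i => Nat.cast_nonneg _)
      (fun i => by positivity) (fun i hi => by
        have hi0 : i ≠ 0 := by
          rintro rfl
          simp at hi
        have : (0 : ℝ) < NQ q i := by exact_mod_cast NQ_pos hi0
        positivity)).trans ?_
    apply mul_le_mul_of_nonneg_right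
    · apply Real.rpow_le_rpow (sum_nonneg fun n _ => by positivity) (sum_tau b)
      positivity
    · apply Real.rpow_nonneg
      apply sum_nonneg
      intro n _
      positivity
  -- the power of log a
  have hla : (Real.log a)⁻¹ ^ ((q : ℝ)⁻¹) ≤ (CM * B) ^ ((q : ℝ)⁻¹) * V b ^ (-(1 / (q : ℝ))) := by
    have h1 : (Real.log a)⁻¹ ≤ CM * B * (V b)⁻¹ := by
      have h2 := hM1 a ha
      rw [inv_le_iff_one_le_mul₀ hlog]
      have h3 : V b ≤ B * (CM * Real.log a) := hV.trans (mul_le_mul_of_nonneg_left h2 hB0.le)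
      have h4 : 1 ≤ B * (CM * Real.log a) / V b := by
        rw [le_div_iff₀ hVb, one_mul]; exact h3
      calc (1 : ℝ) ≤ B * (CM * Real.log a) / V b := h4
        _ = CM * B * (V b)⁻¹ * Real.log a := by rw [div_eq_mul_inv]; ring
    have h5 := Real.rpow_le_rpow (by positivity) h1 (z := (q : ℝ)⁻¹) (by positivity)
    rw [Real.mul_rpow (by positivity) (by positivity), Real.inv_rpow hVb.le, ← Real.rpow_neg hVb.le,
      ← one_div (q : ℝ)] at h5
    rw [← one_div (q : ℝ)]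
    exact h5
  have hF0 : 0 ≤ F q b := sum_nonneg fun n _ => by positivity
  have hsum2 : ∑ n ∈ (PP b).divisors, CR q a b n / n ≤ D * (CM * B) ^ ((q : ℝ)⁻¹) *
      (V b ^ (2 / ((q : ℝ) - 1) - 1 / q) * F q b ^ (((q : ℝ) - 2) / (q - 1))) := by
    refine hsum.trans ?_
    have e1 : (V b ^ 2) ^ (1 / ((q : ℝ) - 1)) = V b ^ (2 / ((q : ℝ) - 1)) := by
      rw [← Real.rpow_natCast, ← Real.rpow_mul hVb.le]
      congr 1
      push_cast
      ring
    have e2 : V b ^ (2 / ((q : ℝ) - 1) - 1 / q) = V b ^ (-(1 / (q : ℝ))) *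
        V b ^ (2 / ((q : ℝ) - 1)) := by
      rw [← Real.rpow_add hVb]
      congr 1
      ring
    rw [e1, e2]
    calc D * (Real.log a)⁻¹ ^ ((q : ℝ)⁻¹) * (V b ^ (2 / ((q : ℝ) - 1)) *
          F q b ^ (((q : ℝ) - 2) / (q - 1)))
        ≤ D * ((CM * B) ^ ((q : ℝ)⁻¹) * V b ^ (-(1 / (q : ℝ)))) * (V b ^ (2 / ((q : ℝ) - 1)) *
          F q b ^ (((q : ℝ) - 2) / (q - 1))) := by
          apply mul_le_mul_of_nonneg_right _ (by positivity)
          exact mul_le_mul_of_nonneg_left hla hD0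
      _ = _ := by ring
  -- conclusion
  have hgr := hG q a b hq (by omega) hab
  have hpow : (V b / V a) ^ (1 + 1 / (q : ℝ)) ≤ B ^ (1 + 1 / (q : ℝ)) :=
    Real.rpow_le_rpow hr0.le hr (by positivity)
  have hT0 : 0 ≤ V b ^ (2 / ((q : ℝ) - 1) - 1 / q) * F q b ^ (((q : ℝ) - 2) / (q - 1)) := by
    positivity
  calc F q b ≤ (V b / V a) ^ (1 + 1 / (q : ℝ)) *
        (F q a + ∑ n ∈ (PP b).divisors, CR q a b n / n) := hgr
    _ ≤ (V b / V a) ^ (1 + 1 / (q : ℝ)) * (F q a + D * (CM * B) ^ ((q : ℝ)⁻¹) *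
      (V b ^ (2 / ((q : ℝ) - 1) - 1 / q) * F q b ^ (((q : ℝ) - 2) / (q - 1)))) := by
        apply mul_le_mul_of_nonneg_left _ (by positivity)
        linarith
    _ = (V b / V a) ^ (1 + 1 / (q : ℝ)) * F q a + (V b / V a) ^ (1 + 1 / (q : ℝ)) *
      (D * (CM * B) ^ ((q : ℝ)⁻¹) *
      (V b ^ (2 / ((q : ℝ) - 1) - 1 / q) * F q b ^ (((q : ℝ) - 2) / (q - 1)))) := by ring
    _ ≤ (V b / V a) ^ (1 + 1 / (q : ℝ)) * F q a + B ^ (1 + 1 / (q : ℝ)) *
      (D * (CM * B) ^ ((q : ℝ)⁻¹) *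
      (V b ^ (2 / ((q : ℝ) - 1) - 1 / q) * F q b ^ (((q : ℝ) - 2) / (q - 1)))) := by
        have := mul_le_mul_of_nonneg_right hpow (show 0 ≤ (D * (CM * B) ^ ((q : ℝ)⁻¹) *
          (V b ^ (2 / ((q : ℝ) - 1) - 1 / q) * F q b ^ (((q : ℝ) - 2) / (q - 1)))) by positivity)
        linarith
    _ ≤ _ := by
        have : (B ^ (1 + 1 / (q : ℝ)) * (D * (CM * B) ^ ((q : ℝ)⁻¹)) + 1) *
            V b ^ (2 / ((q : ℝ) - 1) - 1 / q) * F q b ^ (((q : ℝ) - 2) / (q - 1)) =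
          B ^ (1 + 1 / (q : ℝ)) * (D * (CM * B) ^ ((q : ℝ)⁻¹) *
      (V b ^ (2 / ((q : ℝ) - 1) - 1 / q) * F q b ^ (((q : ℝ) - 2) / (q - 1)))) +
          V b ^ (2 / ((q : ℝ) - 1) - 1 / q) * F q b ^ (((q : ℝ) - 2) / (q - 1)) := by ring
        rw [this]
        linarith

end Pool.Agent.Helper98.Lang
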